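import Pool.Agent.H90.SRC.Targets

set_option autoImplicit false

open Pool.Agent.H90.SRC

namespace Pool.Agent.H13.SRC

theorem pf_NUM : T_NUM := by
  intro ε J C₀ hε hε1 hJ1 hJ2 hC₀
  have hJe : 1 ≤ ε * J / 4 := by
    rw [div_le_iff₀ hε] at hJ1
    linarith
  have hJe2 : ε * J / 4 ≤ 1 + ε / 4 := by
    have h1 : (J : ℝ) * ε ≤ (4 / ε + 1) * ε := mul_le_mul_of_nonneg_right hJ2 hε.le
    have h2 : (4 / ε + 1) * ε = 4 + ε := by field_simp
    rw [h2] at h1
    linarith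
  have hJ4 : (4 : ℝ) ≤ J := by
    refine le_trans ?_ hJ1
    rw [le_div_iff₀ hε]
    linarith
  have hJN : 4 ≤ J := by exact_mod_cast hJ4
  set M : ℝ := 112 * 2 ^ J * C₀ with hM
  have hM0 : 0 < M := by positivity
  set C : ℝ := 8 * M ^ 2 + 2 * 8 ^ J + 1 with hC
  have h8J : (0 : ℝ) < 8 ^ J := by positivity
  have hC1 : 1 ≤ C := by
    rw [hC]
    nlinarith [sq_nonneg M]
  have hC8 : 8 * M ^ 2 ≤ C := by
    rw [hC]
    linarith
  have hC8J : 8 ^ J ≤ C / 2 := by
    rw [hC]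
    nlinarith [sq_nonneg M]
  refine ⟨C, hC1, ?_⟩
  intro θ m hθ hm1 hm2
  have hθ0 : 0 < θ := by linarith
  set a : ℝ := θ ^ (ε / 4) with ha
  have ha1 : 1 ≤ a := Real.one_le_rpow hθ (by positivity)
  have haJ : a ^ J = θ ^ (ε * J / 4) := by
    rw [ha, ← Real.rpow_natCast, ← Real.rpow_mul hθ0.le]
    congr 1
    ring
  have ha4 : a ^ 4 = θ ^ ε := by
    rw [ha, ← Real.rpow_natCast, ← Real.rpow_mul hθ0.le]
    congr 1
    push_cast
    ring
  have ha2 : a ^ 2 = θ ^ (ε / 2) := by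
    rw [ha, ← Real.rpow_natCast, ← Real.rpow_mul hθ0.le]
    congr 1
    push_cast
    ring
  have hθε : θ ^ (1 + ε) = θ * a ^ 4 := by
    rw [ha4, Real.rpow_add hθ0, Real.rpow_one]
  have hex : ∃ t : ℕ, 4 * a ≤ (2 : ℝ) ^ t := by
    obtain ⟨t, ht⟩ := pow_unbounded_of_one_lt (4 * a) (one_lt_two : (1 : ℝ) < 2)
    exact ⟨t, ht.le⟩
  classical
  set t := Nat.find hex with htdef
  have ht : 4 * a ≤ (2 : ℝ) ^ t := Nat.find_spec hex
  have ht2 : 2 ≤ t := by
    by_contra hcon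
    push Not at hcon
    have h1 : t ≤ 1 := by omega
    have h2 : (2 : ℝ) ^ t ≤ 2 ^ 1 := pow_le_pow_right₀ one_le_two h1
    linarith
  have ht3 : (2 : ℝ) ^ t ≤ 8 * a := by
    have h1 := Nat.find_min hex (m := t - 1) (by omega)
    push Not at h1
    have h2 : (2 : ℝ) ^ t = 2 * 2 ^ (t - 1) := by
      rw [← pow_succ']
      congr 1
      omega
    rw [h2]
    linarith
  refine ⟨t, ht2, ?_, ?_, ?_, ?_, ?_⟩
  · -- (i)
    have h1 : 2 * a ≤ (2 : ℝ) ^ t / 2 := by linarith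
    have h2 : (2 * a) ^ J ≤ ((2 : ℝ) ^ t / 2) ^ J := pow_le_pow_left₀ (by linarith) h1 J
    refine lt_of_lt_of_le ?_ h2
    rw [mul_pow, haJ]
    have h3 : θ ≤ θ ^ (ε * J / 4) := by
      calc θ = θ ^ (1 : ℝ) := (Real.rpow_one θ).symm
        _ ≤ θ ^ (ε * J / 4) := Real.rpow_le_rpow_of_exponent_le hθ hJe
    have h4 : (2 : ℝ) ≤ 2 ^ J := by
      calc (2 : ℝ) = 2 ^ 1 := (pow_one 2).symm
        _ ≤ 2 ^ J := pow_le_pow_right₀ one_le_two (by omega)
    nlinarith
  · -- (ii)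
    apply pow_dvd_pow
    have h1 : (2 : ℝ) ^ (t * J) ≤ 2 ^ m := by
      rw [pow_mul]
      calc ((2 : ℝ) ^ t) ^ J ≤ (8 * a) ^ J := pow_le_pow_left₀ (by positivity) ht3 J
        _ = 8 ^ J * θ ^ (ε * J / 4) := by rw [mul_pow, haJ]
        _ ≤ 8 ^ J * θ ^ (1 + ε) := by
          apply mul_le_mul_of_nonneg_left _ h8J.le
          apply Real.rpow_le_rpow_of_exponent_le hθ
          linarith
        _ ≤ C / 2 * θ ^ (1 + ε) := by
          apply mul_le_mul_of_nonneg_right hC8J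
          positivity
        _ ≤ 2 ^ m := by linarith
    exact (pow_le_pow_iff_right₀ (one_lt_two : (1 : ℝ) < 2)).1 h1
  · -- (iii)
    nlinarith
  · -- (iv)
    have h1 : θ ^ (1 + ε) ≤ θ ^ 2 := by
      rw [← Real.rpow_natCast θ 2]
      apply Real.rpow_le_rpow_of_exponent_le hθ
      push_cast
      linarith
    have h2 : (1 : ℝ) ≤ 8 * C * θ := by nlinarith
    calc (2 : ℝ) ^ m ≤ C * θ ^ (1 + ε) := hm2
      _ ≤ C * θ ^ 2 := mul_le_mul_of_nonneg_left h1 (by linarith)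
      _ ≤ (8 * C * θ) ^ 2 := by
        have h3 : (8 * C * θ) ^ 2 = 64 * C * (C * θ ^ 2) := by ring
        rw [h3]
        have h4 : 0 < C * θ ^ 2 := by positivity
        nlinarith
      _ ≤ (8 * C * θ) ^ 10 := pow_le_pow_right₀ h2 (by norm_num)
  · -- (v)
    intro W Q hW hQ
    have hCp : 0 < C := by linarith
    set s : ℝ := Real.sqrt (8 * C) with hs
    have hs0 : 0 < s := Real.sqrt_pos.2 (by linarith)
    have hs2 : s ^ 2 = 8 * C := Real.sq_sqrt (by linarith)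
    have hMs : M * s ≤ C := by
      apply le_of_sq_le_sq _ hCp.le
      rw [mul_pow, hs2]
      nlinarith
    have hpow : (8 * C * θ) ^ (ε / 2) ≤ s * a ^ 2 := by
      rw [Real.mul_rpow (by linarith) hθ0.le, ← ha2]
      apply mul_le_mul_of_nonneg_right _ (by positivity)
      rw [hs, Real.sqrt_eq_rpow]
      apply Real.rpow_le_rpow_of_exponent_le
      · linarith
      · linarith
    have h2m : C * a ^ 4 / 2 ≤ (2 : ℝ) ^ m / θ := by
      rw [le_div_iff₀ hθ0]
      rw [hθε] at hm1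
      linarith
    have h3 : C * a ^ 4 / 2 * (W + 1) ≤ 7 * 2 ^ t * 2 ^ J * Q :=
      le_trans (mul_le_mul_of_nonneg_right h2m (by linarith)) hQ
    have h4 : 0 < C * a ^ 4 / 2 * (W + 1) := by positivity
    have hQ0 : 0 < Q := by
      have h5 : 0 < 7 * (2 : ℝ) ^ t * 2 ^ J * Q := lt_of_lt_of_le h4 h3
      have h6 : (0 : ℝ) < 7 * 2 ^ t * 2 ^ J := by positivity
      exact (mul_pos_iff_of_pos_left h6).1 h5
    have h7 : 7 * 2 ^ t * 2 ^ J * Q ≤ 7 * (8 * a) * 2 ^ J * Q := by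
      apply mul_le_mul_of_nonneg_right _ hQ0.le
      apply mul_le_mul_of_nonneg_right _ (by positivity)
      linarith
    have h8 : a * (C * a ^ 3 * (W + 1)) ≤ a * (112 * 2 ^ J * Q) := by
      have h9 := h3.trans h7
      have e1 : a * (C * a ^ 3 * (W + 1)) = 2 * (C * a ^ 4 / 2 * (W + 1)) := by ring
      have e2 : a * (112 * 2 ^ J * Q) = 2 * (7 * (8 * a) * 2 ^ J * Q) := by ring
      rw [e1, e2]
      linarith
    have h10 : C * a ^ 3 * (W + 1) ≤ 112 * 2 ^ J * Q :=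
      le_of_mul_le_mul_left h8 (by linarith)
    have h11 : (112 * 2 ^ J) * (C₀ * (W + 1) * (8 * C * θ) ^ (ε / 2)) ≤ (112 * 2 ^ J) * Q := by
      calc (112 * 2 ^ J) * (C₀ * (W + 1) * (8 * C * θ) ^ (ε / 2))
          ≤ (112 * 2 ^ J) * (C₀ * (W + 1) * (s * a ^ 2)) := by
            apply mul_le_mul_of_nonneg_left _ (by positivity)
            apply mul_le_mul_of_nonneg_left hpow
            have : 0 < C₀ := by linarith
            positivity
        _ = M * s * ((W + 1) * a ^ 2) := by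
            rw [hM]
            ring
        _ ≤ C * ((W + 1) * a ^ 2) := by
            apply mul_le_mul_of_nonneg_right hMs
            positivity
        _ ≤ C * ((W + 1) * a ^ 3) := by
            apply mul_le_mul_of_nonneg_left _ hCp.le
            apply mul_le_mul_of_nonneg_left _ (by linarith)
            exact pow_le_pow_right₀ ha1 (by norm_num)
        _ = C * a ^ 3 * (W + 1) := by ring
        _ ≤ (112 * 2 ^ J) * Q := h10
    exact le_of_mul_le_mul_left h11 (by positivity)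

end Pool.Agent.H13.SRC
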